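import Pool.Agent.H92.S2.LUT2

/-!
# THEOREM S: the upper bound, if there are many sections divisible by powers of `P`
-/

set_option autoImplicit false

namespace Pool.Agent.H64.SFV

open MvPolynomial
open Pool.Agent.H84.SM (dp cr dt)
open Pool.Agent.H3.SF Pool.Agent.H3.S2 Pool.Agent.H92.SF Pool.Agent.H92.S2

namespace UPG

variable {k F : Type} [Field k] [Field F] [Algebra k F]

theorem kap_smul (u : Fin 3 → F) (c : kap k u) (V : Q2 F) :
    c • V = Polynomial.C (C (c : F)) * V := by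
  rw [Algebra.smul_def]
  rfl

/-- the sections with integral coefficients over the pencil divisible by `Q` -/
noncomputable def WW (u : Fin 3 → F) (dd : Fin 3 → Derivation k F F) (J : MvPolynomial (Fin 3) k)
    (m : ℕ) (G : F) (hE : ∀ c ∈ kap k u, eu u dd c = 0) (Q : Q2 F) (n : ℕ) (τ : ℤ) :
    Submodule (kap k u) (Q2 F) where
  carrier := {V | Tw u dd n τ V ∧ (∀ j a, ItK k u (cf u dd J m G V j a)) ∧ Q ∣ V}
  add_mem' := by
    rintro a b ⟨⟨ha1, ha2⟩, ha3, ha4⟩ ⟨⟨hb1, hb2⟩, hb3, hb4⟩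
    refine ⟨⟨fun j => ⟨fun h => ?_, fun h => ?_⟩, fun j c => ?_⟩, fun j c => ?_, dvd_add ha4 hb4⟩
    · rw [Polynomial.coeff_add]
      exact ((ha1 j).1 h).add ((hb1 j).1 h)
    · rw [Polynomial.coeff_add, (ha1 j).2 h, (hb1 j).2 h, add_zero]
    · have h1 := ha2 j c
      have h2 := hb2 j c
      unfold Hm at *
      rw [Polynomial.coeff_add, coeff_add, map_add, h1, h2, mul_add]
    · unfold cf
      rw [map_add, Polynomial.coeff_add, coeff_add]
      exact (Bb (kap k u) ![u 0, u 2]).add_mem (ha3 j c) (hb3 j c)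
  zero_mem' := by
    refine ⟨⟨fun j => ⟨fun h => ?_, fun h => ?_⟩, fun j c => ?_⟩, fun j c => ?_, dvd_zero _⟩
    · rw [Polynomial.coeff_zero]
      exact isHomogeneous_zero _ _ _
    · simp
    · unfold Hm
      simp
    · unfold cf
      rw [map_zero, Polynomial.coeff_zero, coeff_zero]
      exact (Bb (kap k u) ![u 0, u 2]).zero_mem
  smul_mem' := by
    rintro r a ⟨⟨ha1, ha2⟩, ha3, ha4⟩
    have hr := kap_smul u r a
    have hc : ∀ j c, ((r • a).coeff j).coeff c = (r : F) * (a.coeff j).coeff c := by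
      intro j c
      rw [hr, Polynomial.coeff_C_mul, coeff_C_mul]
    refine ⟨⟨fun j => ⟨fun h => ?_, fun h => ?_⟩, fun j c => ?_⟩, fun j c => ?_, ?_⟩
    · rw [hr, Polynomial.coeff_C_mul]
      have := (isHomogeneous_C (Fin 2) (r : F)).mul ((ha1 j).1 h)
      rwa [zero_add] at this
    · rw [hr, Polynomial.coeff_C_mul, (ha1 j).2 h, mul_zero]
    · have h1 := ha2 j c
      unfold Hm at *
      rw [hc, Derivation.leibniz, h1, hE r r.2, smul_zero, add_zero, smul_eq_mul]
      ring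
    · unfold cf
      have h2 : Ps u dd J m G (r • a) = Polynomial.C (C (r : F)) * Ps u dd J m G a := by
        rw [hr, map_mul]
        congr 1
        simp [Ps, Psi, ev2, cc]
      rw [h2, Polynomial.coeff_C_mul, coeff_C_mul]
      exact (Bb (kap k u) ![u 0, u 2]).smul_mem (ha3 j c) r
    · change Q ∣ r • a
      rw [hr]
      exact Dvd.dvd.mul_left ha4 _

theorem SS_mono (δ j0 m w jP g n i : ℕ) {τ τ' : ℤ} (h : τ ≤ τ') :
    SS δ j0 m w jP g n i τ ≤ SS δ j0 m w jP g n i τ' := by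
  unfold SS
  split_ifs with hc
  · exact le_rfl
  · refine Finset.sum_le_sum fun s _ => Finset.sum_le_sum fun b _ => ?_
    refine max_le_max le_rfl ?_
    have hd : (0 : ℤ) ≤ δ := Int.natCast_nonneg δ
    nlinarith

end UPG

open UPG

theorem pf_UPG2 (hFIN : T_FIN2) (hFRK : T_FRK2) (hFAC : T_FAC2) (hUON : T_UON2) (hUTH : T_UTH2) :
    T_UPG2 := by
  intro k F _ _ _ _ _ u dd δ j0 c0 J m G hG w τP P hP0 hw hwP hP a0 ha0 g hgain n sg j2 hj2 hM
  have _ := hFIN
  have hB := hG.toBw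
  obtain ⟨-, -, hE, hIt, -, -⟩ := hFRK k F u dd δ j0 c0 J m G hB
  have hm : 4 ≤ m := le_trans (Nat.le_add_left 4 j0) hB.big
  -- one step
  have hstep : ∀ (i : ℕ) (τ : ℤ), (∀ V ∈ E u dd J m G n τ, P ^ i ∣ V) →
      (Module.finrank k (E u dd J m G n τ) : ℤ) ≤
        Module.finrank k (E u dd J m G n (τ - 1)) + SS δ j2 m w P.natDegree g n i τ := by
    intro i τ hdv
    obtain ⟨h1, h2⟩ := hUTH k F u dd δ j0 c0 J m G hG w τP P hP0 hP a0 ha0 g i (hgain i) n j2 τ
      (WW u dd J m G hE (P ^ i) n τ) (by omega) (fun V hV => hV)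
    have h3 := hUON k F u dd δ j0 c0 J m G hB n τ (WW u dd J m G hE (P ^ i) n τ) h1
      (fun V hV => ⟨hV.1, fun j a => hIt _ (hV.2 j a), hdv V hV⟩)
    have h4 : (Module.finrank k (E u dd J m G n τ) : ℤ) ≤
        Module.finrank k (E u dd J m G n (τ - 1)) +
          Module.finrank (kap k u) (WW u dd J m G hE (P ^ i) n τ) := by exact_mod_cast h3
    linarith
  -- several steps
  have hsteps : ∀ (i : ℕ) (T N : ℕ), (∀ t : ℕ, T ≤ t → ∀ V ∈ E u dd J m G n (-(t : ℤ)),
      P ^ i ∣ V) → (Module.finrank k (E u dd J m G n (-(T : ℤ))) : ℤ) ≤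
        Module.finrank k (E u dd J m G n (-((T + N : ℕ) : ℤ))) +
          N * SS δ j2 m w P.natDegree g n i (-(T : ℤ)) := by
    intro i T N hdv
    induction N with
    | zero => simp
    | succ N ih =>
      have h1 := hstep i (-((T + N : ℕ) : ℤ)) (hdv (T + N) (Nat.le_add_right _ _))
      have h2 : -((T + N : ℕ) : ℤ) - 1 = -((T + (N + 1) : ℕ) : ℤ) := by push_cast; ring
      rw [h2] at h1
      have h3 := SS_mono δ j2 m w P.natDegree g n i
        (show -((T + N : ℕ) : ℤ) ≤ -(T : ℤ) by push_cast; linarith [Int.natCast_nonneg N])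
      push_cast at ih h1 h3 ⊢
      linarith
  obtain ⟨M, hMm⟩ : ∃ M : ℕ, m = M + 3 := ⟨m - 3, by omega⟩
  have hMz : (m : ℤ) - 3 = M := by rw [hMm]; push_cast; ring
  obtain ⟨T0, hT0⟩ : ∃ T0 : ℕ, T0 = 2 * n * j2 + 1 := ⟨_, rfl⟩
  have hdiv : ∀ (r t : ℕ), T0 + M * r ≤ t → ∀ V ∈ E u dd J m G n (-(t : ℤ)),
      P ^ (r + 1) ∣ V := by
    intro r t ht V hV
    refine hM t (r + 1) V hV ?_
    rw [hMz]
    push_cast
    have h1 : ((T0 + M * r : ℕ) : ℤ) ≤ t := by exact_mod_cast ht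
    rw [hT0] at h1
    push_cast at h1
    have h2 : (2 : ℤ) * (j0 + sg) ≤ j2 := by exact_mod_cast hj2
    have h3 : (n : ℤ) * (2 * (j0 + sg)) ≤ n * j2 :=
      mul_le_mul_of_nonneg_left h2 (Int.natCast_nonneg n)
    have h4 : (0 : ℤ) ≤ (n : ℤ) * j2 := mul_nonneg (Int.natCast_nonneg n) (Int.natCast_nonneg j2)
    nlinarith
  -- block 0
  have h0 := hsteps 0 0 T0 (fun t _ V _ => by rw [pow_zero]; exact one_dvd _)
  -- the blocks
  have hblocks : ∀ R : ℕ, (Module.finrank k (E u dd J m G n (-(T0 : ℤ))) : ℤ) ≤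
      Module.finrank k (E u dd J m G n (-((T0 + M * R : ℕ) : ℤ))) +
        ∑ r ∈ Finset.range R, ((m : ℤ) - 3) * SS δ j2 m w P.natDegree g n (r + 1)
          (-(2 * n * j2 + 1 + ((m : ℤ) - 3) * r)) := by
    intro R
    induction R with
    | zero => simp
    | succ R ih =>
      rw [Finset.sum_range_succ]
      have h1 := hsteps (R + 1) (T0 + M * R) M (hdiv R)
      have h2 : T0 + M * R + M = T0 + M * (R + 1) := by ring
      have h3 : -((T0 + M * R : ℕ) : ℤ) = -(2 * n * j2 + 1 + ((m : ℤ) - 3) * R) := by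
        rw [hMz, hT0]
        push_cast
        ring
      rw [h2] at h1
      rw [← h3, hMz]
      rw [hMz] at ih
      linarith
  -- the end
  have hend : Module.finrank k (E u dd J m G n (-((T0 + M * (n / w) : ℕ) : ℤ))) = 0 := by
    have hbot : E u dd J m G n (-((T0 + M * (n / w) : ℕ) : ℤ)) = ⊥ := by
      rw [Submodule.eq_bot_iff]
      intro V hV
      by_contra hV0
      obtain ⟨N, hN⟩ := hdiv (n / w) _ le_rfl V hV
      have h1 := hFAC k F u dd δ j0 c0 J m G hB n w (n / w + 1) _ τP P N hP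
        (by rw [← hN]; exact hV.1) (by rw [← hN]; exact hV0)
      have h2 := Nat.lt_mul_div_succ n hw
      exact absurd h1.1 (not_le.2 h2)
    rw [hbot]
    exact finrank_bot k _
  have h5 := hblocks (n / w)
  rw [hend] at h5
  unfold UU
  have h6 : ((T0 : ℕ) : ℤ) = 2 * n * j2 + 1 := by rw [hT0]; push_cast; ring
  have h7 : -((0 : ℕ) : ℤ) = 0 := by simp
  rw [h7, Nat.zero_add] at h0
  rw [Nat.cast_zero, zero_add] at h5
  rw [← h6] at h5 ⊢
  linarith

end Pool.Agent.H64.SFV
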